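import Pool.Agent.N565.NG.Fin
import Pool.Agent.N565.NG.Enum
import Pool.Agent.TH167.SH.Fam
import Pool.Agent.TH167.SH.Conv
import Pool.Agent.TH167.SH.Defs

set_option autoImplicit false

/-!
# Further negative curves have `K C ≥ 7`, and `K C ≥ 8` if `C ^ 2 ≤ -2`

Let `s ≥ 4` and let `C` be an irreducible curve with `C ^ 2 < 0` on the blow-up of the plane at `s`
very general points (the strict transform of a plane curve) which is not a `(-1)`-curve. Then
`K C ≥ 7`, and `K C ≥ 8` if `C ^ 2 ≤ -2`. So the arithmetic genus of `C` is at least four if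
`C ^ 2 ≥ -3`.

Quadratic transformations carry `C` to a curve of standard class. By the starting results all
multiplicities of `C` are at least four if `C ^ 2 ≤ -2`, at least ten of them are positive, different
multiplicities differ by at least `√(-C ^ 2)`, and `-C ^ 2` is at most each positive multiplicity.
For `K C ≤ 7` this leaves thirteen classes, of degree up to 51, which are empty by Gaussian
elimination modulo seven in the kernel.
-/

namespace Pool.Agent.Results.MP_d3e5c7_ag.CanonicalDegreeSeven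

open MvPolynomial Pool.Agent.TH167 Pool.Agent.TH167.SHDefs

theorem result (r : ℕ) : ∃ Z : ℕ → MvPolynomial (Fin (r + 4) × Fin 2) ℂ, (∀ n, Z n ≠ 0) ∧
    ∀ P : Fin (r + 4) → Fin 2 → ℂ,
      (∀ n, MvPolynomial.eval (fun ij : Fin (r + 4) × Fin 2 => P ij.1 ij.2) (Z n) ≠ 0) →
      ∀ (d : ℕ) (w : Fin (r + 4) → ℕ) (C : MvPolynomial (Fin 3) ℂ),
        Curve P C d w → inter d w d w < 0 → ¬ MinusOne P C d w →
        7 ≤ interK d w ∧ (inter d w d w ≤ -2 → 8 ≤ interK d w) ∧
          (-3 ≤ inter d w d w → 6 ≤ inter d w d w + interK d w) := by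
  obtain ⟨Z, hZ, h⟩ := SH.exists_fam (Fin (r + 4) × Fin 2)
  refine ⟨Z, hZ, fun P hP0 d w C hC hneg hne => ?_⟩
  have hP := (h _).1 hP0
  obtain ⟨h1, h2, h3⟩ := SH.curve_iff.1 hC
  have hne' : ¬ (SH.ip d w d w = -1 ∧ SH.kk d w = 1) := fun h0 =>
    hne ⟨hC, by rw [SH.inter_eq, h0.1], by rw [SH.interK_eq, h0.2]⟩
  rw [SH.inter_eq] at hneg
  rw [SH.inter_eq, SH.interK_eq]
  have h4 := Pool.Agent.N565.NG.neg_seven Pool.Agent.N565.NG.t_ENUM hP h1 h2 h3 hneg hne'
  exact ⟨h4.1, h4.2.1, fun h5 => by have := h4.2.2 h5; linarith⟩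

end Pool.Agent.Results.MP_d3e5c7_ag.CanonicalDegreeSeven
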